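import Mathlib

set_option autoImplicit false

namespace Pool.Agent.Results.MP_fa5fea_an.Counter
open Matrix Complex Kronecker

/-- The Clifford spectrum. -/
def spec {n d k : ℕ} (A : Fin d → Matrix (Fin n) (Fin n) ℂ) (g : Fin d → Matrix (Fin k) (Fin k) ℂ) :
    Set (Fin d → ℝ) :=
  {l | ¬ IsUnit (∑ j, (A j - (l j : ℂ) • (1 : Matrix (Fin n) (Fin n) ℂ)) ⊗ₖ g j)}

def A : Fin 3 → Matrix (Fin 3) (Fin 3) ℂ :=
  ![!![0, 0, 0; 0, 12, 0; 0, 0, 0], !![0, 5, 0; 5, 0, 0; 0, 0, 0], !![0, 0, 0; 0, 0, 3; 0, 3, 0]]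

def g : Fin 3 → Matrix (Fin 2) (Fin 2) ℂ := ![!![0, 1; 1, 0], !![0, -I; I, 0], !![1, 0; 0, -1]]

def P (x y z : ℝ) : ℝ :=
  ((12 - x) * (x ^ 2 + y ^ 2 + z ^ 2) - 34 * x) ^ 2 + (y * (x ^ 2 + y ^ 2 + z ^ 2 - 16)) ^ 2 +
    (z * (x ^ 2 + y ^ 2 + z ^ 2 + 16)) ^ 2

def M (x y z : ℂ) : Matrix (Fin 6) (Fin 6) ℂ :=
  !![-z, -x + I * y, 0, -5 * I, 0, 0;
     -x - I * y, z, 5 * I, 0, 0, 0;
     0, -5 * I, -z, 12 - x + I * y, 3, 0;
     5 * I, 0, 12 - x - I * y, z, 0, -3;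
     0, 0, 3, 0, -z, -x + I * y;
     0, 0, 0, -3, -x - I * y, z]

theorem detM (x y z : ℝ) : (M x y z).det = -(P x y z : ℂ) := by
  simp [M, P, det_succ_row_zero, Fin.sum_univ_succ, Fin.succAbove, -mul_eq_zero]
  grind [I_sq]

theorem mem (l : Fin 3 → ℝ) : l ∈ spec A g ↔ P (l 0) (l 1) (l 2) = 0 := by
  have : (∑ j, (A j - (l j : ℂ) • (1 : Matrix (Fin 3) (Fin 3) ℂ)) ⊗ₖ g j) =
      (M (l 0) (l 1) (l 2)).submatrix finProdFinEquiv finProdFinEquiv := by
    ext ⟨i, a⟩ ⟨j, b⟩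
    fin_cases i <;> fin_cases j <;> fin_cases a <;> fin_cases b <;>
      simp [A, g, M, Fin.sum_univ_succ, finProdFinEquiv, Matrix.sum_apply] <;> ring
  simp only [spec, Set.mem_ofPred_eq, this, isUnit_iff_isUnit_det, det_submatrix_equiv_self, detM]
  simp

theorem result : ∃ (n d k : ℕ) (A : Fin d → Matrix (Fin n) (Fin n) ℂ)
    (g : Fin d → Matrix (Fin k) (Fin k) ℂ), 1 ≤ n ∧ 1 ≤ d ∧ 1 ≤ k ∧ (∀ j, (A j).IsHermitian) ∧
    (∀ j, (g j).IsHermitian) ∧
    (∀ j l, g j * g l + g l * g j = if j = l then 2 else 0) ∧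
    (∀ W : Submodule ℂ (Fin k → ℂ), (∀ j, ∀ v ∈ W, g j *ᵥ v ∈ W) → W = ⊥ ∨ W = ⊤) ∧
    (spec A g).Finite ∧ n < (spec A g).ncard := by
  have h2 : √2 ^ 2 = 2 := Real.sq_sqrt (by norm_num)
  have fin : (spec A g).Finite := by
    refine (Set.toFinite ({![0, 0, 0], ![6 + √2, 0, 0], ![6 - √2, 0, 0], ![96 / 25, 28 / 25, 0],
      ![96 / 25, -28 / 25, 0]} : Set (Fin 3 → ℝ))).subset fun l hl => ?_
    rw [mem, P] at hl
    have e : l = ![l 0, l 1, l 2] := by ext i; fin_cases i <;> rfl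
    rw [e]
    generalize l 0 = x, l 1 = y, l 2 = z at hl
    have a1 : (12 - x) * (x ^ 2 + y ^ 2 + z ^ 2) - 34 * x = 0 := by
      nlinarith [sq_nonneg ((12 - x) * (x ^ 2 + y ^ 2 + z ^ 2) - 34 * x),
        sq_nonneg (y * (x ^ 2 + y ^ 2 + z ^ 2 - 16)), sq_nonneg (z * (x ^ 2 + y ^ 2 + z ^ 2 + 16))]
    rw [a1] at hl
    have a2 : y * (x ^ 2 + y ^ 2 + z ^ 2 - 16) = 0 := by
      nlinarith [sq_nonneg (y * (x ^ 2 + y ^ 2 + z ^ 2 - 16)),
        sq_nonneg (z * (x ^ 2 + y ^ 2 + z ^ 2 + 16))]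
    rw [a2] at hl
    have a3 : z * (x ^ 2 + y ^ 2 + z ^ 2 + 16) = 0 := pow_eq_zero_iff two_ne_zero |>.1 (by linarith)
    obtain rfl : z = 0 := (mul_eq_zero.1 a3).resolve_right (by positivity)
    rcases mul_eq_zero.1 a2 with rfl | a4
    · have : x * (x - (6 + √2)) * (x - (6 - √2)) = 0 := by linear_combination -a1 - x * h2
      rcases mul_eq_zero.1 this with h | h
      · rcases mul_eq_zero.1 h with h | h
        · simp [h]
        · simp [sub_eq_zero.1 h]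
      · simp [sub_eq_zero.1 h]
    · obtain rfl : x = 96 / 25 := by linear_combination (-1 / 50) * a1 + (12 - x) / 50 * a4
      have : (y - 28 / 25) * (y - -28 / 25) = 0 := by linear_combination a4
      rcases mul_eq_zero.1 this with h | h <;> simp [sub_eq_zero.1 h]
  refine ⟨3, 3, 2, A, g, by norm_num, by norm_num, by norm_num, fun j => ?_, fun j => ?_,
    fun j l => ?_, fun W hW => ?_, fin, ?_⟩
  · fin_cases j <;> ext a b <;> fin_cases a <;> fin_cases b <;> simp [A, conjTranspose_apply]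
  · fin_cases j <;> ext a b <;> fin_cases a <;> fin_cases b <;> simp [g, conjTranspose_apply]
  · fin_cases j <;> fin_cases l <;> ext a b <;> fin_cases a <;> fin_cases b <;>
      simp [g, Matrix.ofNat_apply] <;> norm_num
  · refine or_iff_not_imp_left.2 fun h => ?_
    obtain ⟨v, hv, h0⟩ := (Submodule.ne_bot_iff W).1 h
    have k1 : ∀ v ∈ W, v 0 ≠ 0 → (![1, 0] : Fin 2 → ℂ) ∈ W := fun v hv h => by
      convert W.smul_mem (2 * v 0)⁻¹ (W.add_mem hv (hW 2 v hv)) using 1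
      ext i
      fin_cases i <;> simp [g, dotProduct, Fin.sum_univ_succ, vecHead, vecTail]
      field_simp; norm_num
    have k2 : (![1, 0] : Fin 2 → ℂ) ∈ W := by
      by_cases h : v 0 = 0
      · refine k1 _ (hW 0 v hv) fun h' => h0 ?_
        ext i
        fin_cases i
        · exact h
        · simpa [g, mulVec, dotProduct, Fin.sum_univ_succ] using h'
      · exact k1 v hv h
    refine eq_top_iff.2 fun w _ => ?_
    convert W.add_mem (W.smul_mem (w 0) k2) (W.smul_mem (w 1) (hW 0 _ k2)) using 1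
    ext i
    fin_cases i <;> simp [g]
  · have hs : ({![0, 0, 0], ![6 + √2, 0, 0], ![96 / 25, 28 / 25, 0],
        ![96 / 25, -28 / 25, 0]} : Set (Fin 3 → ℝ)) ⊆ spec A g := by
      rintro l (rfl | rfl | rfl | rfl) <;> rw [mem] <;> simp [P] <;> try norm_num
      linear_combination (-(6 + √2)) * h2
    refine lt_of_lt_of_le ?_ (Set.ncard_le_ncard hs fin)
    have h3 : 0 ≤ √2 := Real.sqrt_nonneg 2
    rw [Set.ncard_insert_of_notMem, Set.ncard_insert_of_notMem, Set.ncard_pair]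
    · norm_num
    · intro h; have := congrFun h 1; norm_num at this
    · rintro (h | h) <;> have := congrFun h 1 <;> norm_num at this
    · rintro (h | h | h) <;> have := congrFun h 0 <;> norm_num at this
      linarith

end Pool.Agent.Results.MP_fa5fea_an.Counter
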